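import Pool.Agent.Results.MP_6f1c57_nt.OneExceptionalSet
import Pool.Agent.V11326.WO1

/-!
# The height inequality for ALL points, of whatever height, whose conductors lie in windows

Let `K` be a number field and `a_1, …, a_q` distinct rational numbers, `q ≥ 3`. For `x ∈ K` let `N(x)` be the truncated
counting function of `x` with respect to `[a_1] + … + [a_q]`, so that `exp N(x)` is the conductor of `x` (a natural
number). There are `X ^ (2 / q + o(1))` elements with `exp N(x) ≤ X`, of all heights. Let `v_n ≥ 1` be a sequence, for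
example `v_n = 2 ^ n`. For all real `β` outside a set `F` of small Hausdorff dimension, and of measure zero if the windows
are short, there is `n₀` such that ALL `x ∈ K` with `|exp (2 N(x) / q) - β v_n| ≤ v_n ^ θ` for some `n ≥ n₀` have the
following property.

Let `k` be any number field, let `A` be a Dedekind domain, finite over `k[t]` and containing it (the ring of functions of a
smooth affine curve over `k` which is finite over the `t`-line), of rank `N`, and let `y_{j 0} = t - a_j, y_{j 1}, …` be
elements of the radical of the ideal `(t - a_j)` of `A`, for example generators. Then there is a constant `c` such that for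
all these `x`, all points `P` of the curve with `t(P) = x`, all number fields `L` containing `k` and `K` over which `P` is
defined and all finite sets `S` of primes
`m_S(F, P) + (q - (∑_j dim (A / (y_{j 0}, y_{j 1}, …))) / N) h(x) ≤ d(L) + ε h(x) + ∑_{p ∈ S} log p + c`.

The proof combines the starting result `OneExceptionalSet` with a covering argument. The definitions of `counting`,
`proximity`, `logDisc`, `degree`, `height`, `coord` are those of that file.
-/

set_option autoImplicit false

namespace Pool.Agent.Results.MP_6f1c57_nt.ConductorWindows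

open Polynomial IsDedekindDomain NumberField MeasureTheory
open Pool.Agent.Results.MP_6f1c57_nt.OneExceptionalSet

/-- The exponent of convergence of the sequence `v` is at most `τ`: the sum of the `v_n ^ (-p)` converges for all
`p > τ`. -/
def ExpLe (v : ℕ → ℝ) (τ : ℝ) : Prop := ∀ p : ℝ, τ < p → Summable fun n => (v n) ^ (-p)

/-- The elements of `K`, different from the `a_j`, with `|(exp N(x)) ^ (2 / q) - β w| ≤ w ^ θ`. -/
def Window (K : Type) [Field K] [NumberField K] {q : ℕ} (a : Fin q → ℚ) (β w θ : ℝ) : Set K :=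
  {x | (∀ j, x ≠ algebraMap ℚ K (a j)) ∧
    |Real.exp (2 / (q : ℝ) * counting (fun j => algebraMap ℚ K (a j)) x) - β * w| ≤ w ^ θ}

theorem result (K : Type) [Field K] [NumberField K] (q : ℕ) (hq : 3 ≤ q) (a : Fin q → ℚ)
    (ha : Function.Injective a) (ε : ℝ) (hε : 0 < ε) :
    ∃ ν : ℝ, 0 < ν ∧ ν ≤ 1 ∧ ∀ (v : ℕ → ℝ) (τ θ : ℝ), (∀ n, 1 ≤ v n) → 0 ≤ τ → ExpLe v τ → θ < 1 →
      ∃ F : Set ℝ, dimH F ≤ ENNReal.ofReal ((1 - ν + τ) / (1 - θ)) ∧
        (τ + θ < ν → volume F = 0) ∧
        ∀ β : ℝ, β ∉ F → ∃ n₀ : ℕ,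
        ∀ (k : Type) [Field k] [NumberField k] (A : Type) [CommRing A] [IsDedekindDomain A]
        [Algebra k A] [Algebra k[X] A] [IsScalarTower k k[X] A] [Module.Finite k[X] A]
        [FaithfulSMul k[X] A] (u : Fin q → ℕ) (y : ∀ j, Fin (u j + 1) → A),
        (∀ j, y j 0 = coord k A - algebraMap k A (algebraMap ℚ k (a j))) →
        (∀ j i, y j i ∈
          (Ideal.span {coord k A - algebraMap k A (algebraMap ℚ k (a j))}).radical) →
        ∃ c : ℝ, ∀ n : ℕ, n₀ ≤ n → ∀ x ∈ Window K a β (v n) θ,
          ∀ (L : Type) [Field L] [NumberField L] [Algebra K L] [Algebra k L] (φ : A →ₐ[k] L),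
            φ (coord k A) = algebraMap K L x → ∀ S : Finset ℕ, (∀ p ∈ S, p.Prime) →
              proximity S y φ + degree k y * height x ≤
                logDisc L + ε * height x + ∑ p ∈ S, Real.log p + c := by
  obtain ⟨h1, h2⟩ := OneExceptionalSet.result K q hq a ha
  obtain ⟨C1, hC1⟩ := (h1 1 one_pos).1
  obtain ⟨E, ⟨ν, C, hν, -, hC⟩, -, hE⟩ := h2 ε hε
  have hqr : (0 : ℝ) < q := by exact_mod_cast (by omega : 0 < q)
  obtain ⟨ν', hν', hν1, hmain⟩ := Pool.Agent.V11326.WO1.single (r := 2 / (q : ℝ)) (by positivity) E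
    (fun x : K => ∀ j, x ≠ algebraMap ℚ K (a j)) (fun x => counting (fun j => algebraMap ℚ K (a j)) x) hν (C := C)
    (fun X hX => (hC1 X hX).1) hC
  refine ⟨ν', hν', hν1, fun v τ θ hv hτ hvτ hθ => ?_⟩
  obtain ⟨F, hF, hF0, h3⟩ := hmain v τ θ hv hτ hvτ hθ
  refine ⟨F, hF, hF0, fun β hβ => ?_⟩
  obtain ⟨n₀, hn⟩ := h3 β hβ
  refine ⟨n₀, ?_⟩
  intro k _ _ A _ _ _ _ _ _ _ u y hy0 hyr
  obtain ⟨c, hc⟩ := hE k A u y hy0 hyr
  exact ⟨c, fun n hnn x hx L _ _ _ _ φ hφ S hS => hc x (hn n hnn x hx.1 hx.2) hx.1 L φ hφ S hS⟩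

end Pool.Agent.Results.MP_6f1c57_nt.ConductorWindows
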