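import Pool.Agent.Results.MP_6f1c57_nt.ProximityWindows
import Pool.Agent.H2N.NearSpace

/-!
# The height inequality with proximity function and discriminant for all algebraic numbers near almost every point

For a curve which is finite over the `t`-line, divisors above `q ≥ 3` rational points, `r ≥ 2` and `κ ≤ q` there is an
explicit exponent `e`, smaller than `r + 1` for `κ ≥ 0`, with the following property. Let `φ` be a map of `ℂ` to a metric
space and `σ > 0`. For all points `z` outside a set of Hausdorff dimension at most `r max(e, 0) / σ` and each `C₀` the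
inequality `m_S(F, P) + (degree - κ) h(x) ≤ d(L) + ∑_{p ∈ S} log p - C₀` holds for all but finitely many algebraic numbers
`x` of degree `r` with `dist (φ x) z ≤ H(x) ^ (-σ)`, for ALL points `P` of the curve above `x`, over any number field `L`,
and ALL finite sets `S` of primes.

For almost every real `z` this holds for the algebraic numbers `x` of degree `r` with `|x - z| ≤ H(x) ^ (-σ)`,
`σ > r max(e, 0)`, and for almost every complex `z` for `σ > r max(e, 0) / 2`. The number of algebraic numbers of degree `r`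
and height at most `B` is about `B ^ (r (r + 1))`, and the approximation to almost every real (complex) number by them with
`σ < r (r + 1)` (`σ < r (r + 1) / 2`) is possible infinitely often.
-/

set_option autoImplicit false

open Polynomial IsDedekindDomain NumberField MeasureTheory Filter
open scoped ENNReal NNReal

namespace Pool.Agent.Results.MP_6f1c57_nt.NearAlmostEveryPoint

open ProximityAllCurves (height coord proximity logDisc degree alpha exponent exceptional)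
open ProximityWindows (Bad expo_lt)

theorem dvd_aux {f g : ℤ[X]} (hf : Irreducible f) (hg : Irreducible g) (hf0 : f.natDegree ≠ 0)
    (hg0 : g.natDegree ≠ 0) {x : ℂ} (hfx : aeval x f = 0) (hgx : aeval x g = 0) : f ∣ g := by
  have hfp := hf.isPrimitive hf0
  have hfq : Irreducible (f.map (Int.castRingHom ℚ)) := (IsPrimitive.Int.irreducible_iff_irreducible_map_cast hfp).1 hf
  have h1 : aeval x (f.map (Int.castRingHom ℚ)) = 0 := by
    rw [← hfx, aeval_def, aeval_def, eval₂_map]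
    congr 1
  have h2 : aeval x (g.map (Int.castRingHom ℚ)) = 0 := by
    rw [← hgx, aeval_def, aeval_def, eval₂_map]
    congr 1
  have e1 := minpoly.eq_of_irreducible hfq h1
  have e2 : f.map (Int.castRingHom ℚ) ∣ minpoly ℚ x := Dvd.intro _ e1
  exact (IsPrimitive.Int.dvd_iff_map_cast_dvd_map_cast f g hfp).2 (e2.trans (minpoly.dvd ℚ x h2))

/-- the height does not depend on the choice of the polynomial -/
theorem height_unique {f g : ℤ[X]} (hf : Irreducible f) (hg : Irreducible g) (hf0 : f.natDegree ≠ 0)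
    (hg0 : g.natDegree ≠ 0) {x : ℂ} (hfx : aeval x f = 0) (hgx : aeval x g = 0) : height f = height g := by
  obtain ⟨u, hu⟩ := associated_of_dvd_dvd (dvd_aux hf hg hf0 hg0 hfx hgx) (dvd_aux hg hf hg0 hf0 hgx hfx)
  obtain ⟨c, hc, hcu⟩ := Polynomial.isUnit_iff.1 u.isUnit
  rw [← hu, ← hcu]
  have hc0 : c ≠ 0 := hc.ne_zero
  unfold height
  have e1 : (f * C c).natDegree = f.natDegree := by
    rw [natDegree_mul_C hc0]
  rw [e1, Polynomial.map_mul, mahlerMeasure_mul, map_C, mahlerMeasure_const]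
  have : ‖(Int.castRingHom ℂ) c‖ = 1 := by
    rcases Int.isUnit_iff.1 hc with rfl | rfl <;> simp
  rw [this, mul_one]

/-- `f` is an irreducible integral polynomial of degree `r` with root `x` -/
def Root (r : ℕ) (f : ℤ[X]) (x : ℂ) : Prop := Irreducible f ∧ f.natDegree = r ∧ aeval x f = 0

open Classical in
/-- the height of a number of degree `r` -/
noncomputable def H (r : ℕ) (x : ℂ) : ℝ := if h : ∃ f, Root r f x then Real.exp (height h.choose) else 1

theorem H_eq {r : ℕ} (hr : 1 ≤ r) {f : ℤ[X]} {x : ℂ} (h : Root r f x) : H r x = Real.exp (height f) := by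
  have hex : ∃ f, Root r f x := ⟨f, h⟩
  unfold H
  rw [dif_pos hex]
  have h2 := hex.choose_spec
  rw [height_unique h2.1 h.1 (by rw [h2.2.1]; omega) (by rw [h.2.1]; omega) h2.2.2 h.2.2]

theorem height_nonneg {f : ℤ[X]} (hf : f ≠ 0) : 0 ≤ height f :=
  div_nonneg (Real.log_nonneg (one_le_mahlerMeasure_of_ne_zero hf)) (Nat.cast_nonneg _)

theorem one_le_H (r : ℕ) (x : ℂ) : 1 ≤ H r x := by
  unfold H
  split_ifs with h
  · exact Real.one_le_exp (height_nonneg h.choose_spec.1.ne_zero)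
  · exact le_rfl

section
variable {A : Type} [CommRing A] [Algebra ℚ A] [Algebra ℚ[X] A] {q : ℕ}

/-- the inequality for all points of the curve above `x` and all finite sets of primes -/
def Ineq (u : Fin q → ℕ) (y : ∀ j, Fin (u j + 1) → A) (κ C₀ : ℝ) (f : ℤ[X]) (x : ℂ) : Prop :=
  ∀ (L : IntermediateField ℚ ℂ) [NumberField L] (φ : A →+* L) (S : Finset ℕ),
    (φ (coord A) : ℂ) = x → (∀ p ∈ S, p.Prime) →
      proximity S u y L φ + (degree u y - κ) * height f ≤ logDisc L + ∑ p ∈ S, Real.log p - C₀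

/-- the exceptional numbers -/
def Exc (u : Fin q → ℕ) (y : ∀ j, Fin (u j + 1) → A) (r : ℕ) (κ C₀ : ℝ) : Set ℂ :=
  {x | ∃ f, Bad u y r κ C₀ f x}

theorem count (u : Fin q → ℕ) (y : ∀ j, Fin (u j + 1) → A) {r : ℕ} (hr : 1 ≤ r) (κ C₀ e : ℝ)
    (h : ∀ δ : ℝ, 0 < δ → ∃ C : ℝ, ∀ B : ℝ, 1 ≤ B → (exceptional u y r κ C₀ B).Finite ∧
      ((exceptional u y r κ C₀ B).ncard : ℝ) ≤ C * B ^ ((r : ℝ) * e + δ)) (ε : ℝ) (hε : 0 < ε) :
    ∃ C : ℝ, ∀ X : ℝ, 1 ≤ X → {x | x ∈ Exc u y r κ C₀ ∧ H r x ≤ X}.Finite ∧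
      ({x | x ∈ Exc u y r κ C₀ ∧ H r x ≤ X}.ncard : ℝ) ≤ C * X ^ ((r : ℝ) * max e 0 + ε) := by
  obtain ⟨C, hC⟩ := h ε hε
  refine ⟨|C|, fun X hX => ?_⟩
  have hX0 : 0 < X := by linarith
  obtain ⟨h1, h2⟩ := hC X hX
  have hsub : {x | x ∈ Exc u y r κ C₀ ∧ H r x ≤ X} ⊆ exceptional u y r κ C₀ X := by
    rintro x ⟨⟨f, g1, g2, g3, g4⟩, g5⟩
    refine ⟨f, g1, g2, g3, ?_, g4⟩
    rw [H_eq hr ⟨g1, g2, g3⟩] at g5
    exact (Real.le_log_iff_exp_le hX0).2 g5
  refine ⟨h1.subset hsub, ?_⟩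
  have h3 : ({x | x ∈ Exc u y r κ C₀ ∧ H r x ≤ X}.ncard : ℝ) ≤ ((exceptional u y r κ C₀ X).ncard : ℝ) := by
    exact_mod_cast Set.ncard_le_ncard hsub h1
  refine (h3.trans h2).trans ?_
  calc C * X ^ ((r : ℝ) * e + ε) ≤ |C| * X ^ ((r : ℝ) * e + ε) :=
        mul_le_mul_of_nonneg_right (le_abs_self _) (Real.rpow_nonneg hX0.le _)
    _ ≤ |C| * X ^ ((r : ℝ) * max e 0 + ε) := by
        refine mul_le_mul_of_nonneg_left (Real.rpow_le_rpow_of_exponent_le hX ?_) (abs_nonneg _)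
        have := mul_le_mul_of_nonneg_left (le_max_left e 0) (Nat.cast_nonneg (α := ℝ) r)
        linarith

theorem nat_bad {u : Fin q → ℕ} {y : ∀ j, Fin (u j + 1) → A} {r : ℕ} (hr : 1 ≤ r) {κ σ : ℝ} {P : ℂ → Prop}
    (h : ∀ m : ℕ, {x | x ∈ Exc u y r κ (-(m : ℝ)) ∧ P x}.Finite) (C₀ : ℝ) :
    {x : ℂ | ∃ f, Root r f x ∧ P x ∧ ¬ Ineq u y κ C₀ f x}.Finite := by
  obtain ⟨m, hm⟩ := exists_nat_ge C₀
  refine (h m).subset ?_
  rintro x ⟨f, ⟨g1, g2, g3⟩, g4, g5⟩
  refine ⟨⟨f, g1, g2, g3, ?_⟩, g4⟩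
  unfold Ineq at g5
  push Not at g5
  obtain ⟨L, hL, φ, S, g6, g7, g8⟩ := g5
  refine ⟨L, hL, φ, S, g6, g7, ?_⟩
  linarith

end

/-- **Theorem.** For `η > 0` there is `c ≥ 1` such that the following holds. Let `A` be a Dedekind domain, finite over
`ℚ[t]` and containing it, let `r ≥ 2`, let `a_1, …, a_q` be `q ≥ 3` distinct rational numbers, let
`y_{j 0} = t - a_j, y_{j 1}, …` be elements of the radical of the ideal `(t - a_j)` and `κ ≤ q`. (For `κ ≥ 0` the exponent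
`e = exponent (alpha r c η) r q κ` is smaller than `r + 1`.) Write `Ineq` for the inequality
`m_S(F, P) + (degree - κ) h(x) ≤ d(L) + ∑_{p ∈ S} log p - C₀` for ALL points `P` of the curve above `x`, over any number
field `L`, and ALL finite sets `S` of primes.
(1) For every map `φ` of `ℂ` to a metric space `M` and `σ > 0` there is a set `E ⊆ M` of Hausdorff dimension at most
`r max(e, 0) / σ` such that for all `z` outside `E` and all `C₀` the inequality holds for all but finitely many algebraic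
numbers `x` of degree `r` (with irreducible integral polynomial `f` and height `H(x) = exp (height f)`) with
`dist (φ x) z ≤ H(x) ^ (-σ)`.
(2) For almost every real `z`, all `σ > r max(e, 0)` and all `C₀` the inequality holds for all but finitely many algebraic
numbers `x` of degree `r` with `|x - z| ≤ H(x) ^ (-σ)`.
(3) For almost every complex `z` this holds for all `σ > r max(e, 0) / 2`. -/
theorem result :
    ∀ η : ℝ, 0 < η → ∃ c : ℝ, 1 ≤ c ∧
      ∀ (A : Type) [CommRing A] [IsDedekindDomain A] [Algebra ℚ A] [Algebra ℚ[X] A]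
        [IsScalarTower ℚ ℚ[X] A] [Module.Finite ℚ[X] A] [FaithfulSMul ℚ[X] A]
        (r q : ℕ), 2 ≤ r → 3 ≤ q → ∀ a : Fin q → ℚ, Function.Injective a →
      ∀ (u : Fin q → ℕ) (y : ∀ j, Fin (u j + 1) → A),
      (∀ j, y j 0 = coord A - algebraMap ℚ[X] A (C (a j))) →
      (∀ j i, y j i ∈ (Ideal.span {coord A - algebraMap ℚ[X] A (C (a j))}).radical) →
      ∀ κ : ℝ, κ ≤ q →
      (0 ≤ κ → exponent (alpha r c η) r q κ < r + 1) ∧
      (∀ (M : Type) [MetricSpace M] (φ : ℂ → M) (σ : ℝ), 0 < σ →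
        ∃ E : Set M, dimH E ≤ ENNReal.ofReal ((r : ℝ) * max (exponent (alpha r c η) r q κ) 0 / σ) ∧
        ∀ z : M, z ∉ E → ∀ C₀ : ℝ,
          {x : ℂ | ∃ f : ℤ[X], Root r f x ∧ dist (φ x) z ≤ Real.exp (height f) ^ (-σ) ∧ ¬ Ineq u y κ C₀ f x}.Finite) ∧
      (∀ᵐ z : ℝ, ∀ σ : ℝ, (r : ℝ) * max (exponent (alpha r c η) r q κ) 0 < σ → ∀ C₀ : ℝ,
        {x : ℂ | ∃ f : ℤ[X], Root r f x ∧ ‖x - z‖ ≤ Real.exp (height f) ^ (-σ) ∧ ¬ Ineq u y κ C₀ f x}.Finite) ∧
      (∀ᵐ z : ℂ, ∀ σ : ℝ, (r : ℝ) * max (exponent (alpha r c η) r q κ) 0 / 2 < σ → ∀ C₀ : ℝ,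
        {x : ℂ | ∃ f : ℤ[X], Root r f x ∧ ‖x - z‖ ≤ Real.exp (height f) ^ (-σ) ∧ ¬ Ineq u y κ C₀ f x}.Finite) := by
  intro η hη
  obtain ⟨c, hc, hmain⟩ := ProximityAllCurves.result η hη
  refine ⟨c, hc, fun A _ _ _ _ _ _ _ r q hr hq a ha u y hy0 hy κ hκ => ⟨fun h0 => expo_lt hr hq hc h0, ?_⟩⟩
  have hr1 : 1 ≤ r := by omega
  have hs : 0 ≤ (r : ℝ) * max (exponent (alpha r c η) r q κ) 0 := mul_nonneg (Nat.cast_nonneg _) (le_max_right _ _)
  have hcount : ∀ j : ℕ, ∀ ε : ℝ, 0 < ε → ∃ C : ℝ, ∀ X : ℝ, 1 ≤ X →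
      {x | x ∈ Exc u y r κ (-(j : ℝ)) ∧ H r x ≤ X}.Finite ∧
      ({x | x ∈ Exc u y r κ (-(j : ℝ)) ∧ H r x ≤ X}.ncard : ℝ) ≤
        C * X ^ ((r : ℝ) * max (exponent (alpha r c η) r q κ) 0 + ε) := fun j ε hε =>
    count u y hr1 κ (-(j : ℝ)) _ (fun δ hδ => hmain A r q hr hq a ha u y hy0 hy κ (-(j : ℝ)) δ hκ hδ) ε hε
  refine ⟨fun M _ φ σ hσ => ?_, ?_, ?_⟩
  · obtain ⟨E, h1, h2⟩ := Pool.Agent.H107.ME.dim_family φ (fun x : ℂ => H r x) (fun x => one_le_H r x) hs hσ
      (fun j : ℕ => Exc u y r κ (-(j : ℝ))) hcount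
    refine ⟨E, h1, fun z hz C₀ => ?_⟩
    have h3 := nat_bad (σ := σ) hr1 (P := fun x => dist (φ x) z ≤ H r x ^ (-σ)) (h2 z hz) C₀
    refine h3.subset ?_
    rintro x ⟨f, g1, g2, g3⟩
    refine ⟨f, g1, ?_, g3⟩
    rw [H_eq hr1 g1]
    exact g2
  · have h1 := Pool.Agent.H2N.ae_family_space (volume : Measure ℝ) (by rw [Module.finrank_self]; exact one_pos)
      (fun x : ℂ => x.re) (fun x : ℂ => H r x) (fun x => one_le_H r x) hs (fun j : ℕ => Exc u y r κ (-(j : ℝ))) hcount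
    filter_upwards [h1] with z hz σ hσ C₀
    have h3 := nat_bad (σ := σ) hr1 (P := fun x => dist x.re z ≤ H r x ^ (-σ))
      (hz σ (by rw [Module.finrank_self, Nat.cast_one, div_one]; exact hσ)) C₀
    refine h3.subset ?_
    rintro x ⟨f, g1, g2, g3⟩
    refine ⟨f, g1, ?_, g3⟩
    rw [H_eq hr1 g1]
    refine le_trans ?_ g2
    have h4 := Complex.abs_re_le_norm (x - z)
    rwa [Complex.sub_re, Complex.ofReal_re] at h4
  · have h1 := Pool.Agent.H2N.ae_family_space (volume : Measure ℂ)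
      (by rw [Complex.finrank_real_complex]; norm_num)
      (fun x : ℂ => x) (fun x : ℂ => H r x) (fun x => one_le_H r x) hs (fun j : ℕ => Exc u y r κ (-(j : ℝ))) hcount
    filter_upwards [h1] with z hz σ hσ C₀
    have h3 := nat_bad (σ := σ) hr1 (P := fun x => dist x z ≤ H r x ^ (-σ))
      (hz σ (by rw [Complex.finrank_real_complex]; exact_mod_cast hσ)) C₀
    refine h3.subset ?_
    rintro x ⟨f, g1, g2, g3⟩
    refine ⟨f, g1, ?_, g3⟩
    rw [H_eq hr1 g1, dist_eq_norm]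
    exact g2

end Pool.Agent.Results.MP_6f1c57_nt.NearAlmostEveryPoint
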