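import Pool.Agent.Results.MP_6f1c57_nt.ProximityWindows
import Pool.Agent.V11001.KM.Near

/-!
# The height inequality with proximity function for the numbers with height near the powers of almost every real number

For a curve which is finite over the `t`-line, divisors above `q ≥ 3` rational points, `r ≥ 2` and `0 ≤ κ ≤ q`, let
`ν n / log n → ∞`, for example `ν n = n`. There is an explicit exponent `e < r + 1` such that for almost every real `z > 1`,
all `θ < 1 - max e 0 / (r + 1)` and each `C₀` the inequality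
`m_S(D, P) + (degree - κ) h(x) ≤ d(L) + ∑_{p ∈ S} log p - C₀` holds for ALL algebraic numbers `x` of degree `r` of large
height with `|H(x) ^ (r (r + 1)) - β z ^ (ν n)| ≤ z ^ (θ ν n)` for some `n`, ALL points `P` of the curve above `x`, over any
number field `L`, and ALL finite sets `S` of primes.
-/

set_option autoImplicit false

namespace Pool.Agent.Results.MP_6f1c57_nt.NumbersNearPowers

open Polynomial IsDedekindDomain NumberField Pool.Agent.V11001.KM
open ProximityAllCurves (height coord proximity logDisc degree alpha exponent exceptional)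
open ProximityWindows (Val Bad count expo_lt)

/-- **Theorem.** For `η > 0` there is `c ≥ 1` such that the following holds. Let `A` be a Dedekind domain, finite over
`ℚ[t]` and containing it, let `r ≥ 2`, let `a_1, …, a_q` be `q ≥ 3` distinct rational numbers, let
`y_{j 0} = t - a_j, y_{j 1}, …` be elements of the radical of the ideal `(t - a_j)` and `κ ≤ q`. (For `κ ≥ 0` the exponent
`e = exponent (alpha r c η) r q κ` is smaller than `r + 1`.) Let `ν n / log n → ∞` and let `U` be a countable set of real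
numbers.
(1) For `θ < 1` there is a set `E` of Hausdorff dimension at most `max e 0 / (r + 1) / (1 - θ)` such that for each `z > 1`
outside `E`, each positive `β` in `U` and each `C₀` there is `H₀` such that for ALL algebraic numbers `x` of degree `r` (with
irreducible integral polynomial `f` and height `H = exp (height f)`) with `H ^ (r (r + 1)) ≥ H₀` and
`|H ^ (r (r + 1)) - β z ^ (ν n)| ≤ z ^ (θ ν n)` for some `n`, ALL points `P = φ` of the curve above `x` over any number
field `L` and ALL finite sets `S` of primes `m_S(F, P) + (degree - κ) h(x) ≤ d(L) + ∑_{p ∈ S} log p - C₀`.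
(2) For almost every real `z > 1` this holds for all `θ < 1 - max e 0 / (r + 1)`. -/
theorem result :
    ∀ η : ℝ, 0 < η → ∃ c : ℝ, 1 ≤ c ∧
      ∀ (A : Type) [CommRing A] [IsDedekindDomain A] [Algebra ℚ A] [Algebra ℚ[X] A]
        [IsScalarTower ℚ ℚ[X] A] [Module.Finite ℚ[X] A] [FaithfulSMul ℚ[X] A]
        (r q : ℕ), 2 ≤ r → 3 ≤ q → ∀ a : Fin q → ℚ, Function.Injective a →
      ∀ (u : Fin q → ℕ) (y : ∀ j, Fin (u j + 1) → A),
      (∀ j, y j 0 = coord A - algebraMap ℚ[X] A (C (a j))) →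
      (∀ j i, y j i ∈ (Ideal.span {coord A - algebraMap ℚ[X] A (C (a j))}).radical) →
      ∀ κ : ℝ, κ ≤ q →
      (0 ≤ κ → exponent (alpha r c η) r q κ < r + 1) ∧
      ∀ (ν : ℕ → ℝ), Fast ν → ∀ U : Set ℝ, U.Countable →
      (∀ θ : ℝ, θ < 1 →
        ∃ E : Set ℝ, dimH E ≤ ENNReal.ofReal (max (exponent (alpha r c η) r q κ) 0 / (r + 1) / (1 - θ)) ∧
        ∀ z : ℝ, 1 < z → z ∉ E → ∀ β ∈ U, 0 < β → ∀ C₀ : ℝ, ∃ H₀ : ℝ, ∀ (x : ℂ) (f : ℤ[X]),
          Irreducible f → f.natDegree = r → aeval x f = 0 → H₀ ≤ Real.exp (height f) ^ (r * (r + 1)) →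
          Near ν θ β z (Real.exp (height f) ^ (r * (r + 1))) →
            ∀ (L : IntermediateField ℚ ℂ) [NumberField L] (φ : A →+* L) (S : Finset ℕ),
              (φ (coord A) : ℂ) = x → (∀ p ∈ S, p.Prime) →
              proximity S u y L φ + (degree u y - κ) * height f ≤ logDisc L + ∑ p ∈ S, Real.log p - C₀) ∧
      (∀ᵐ z : ℝ, 1 < z → ∀ θ : ℝ, θ < 1 - max (exponent (alpha r c η) r q κ) 0 / (r + 1) →
        ∀ β ∈ U, 0 < β → ∀ C₀ : ℝ, ∃ H₀ : ℝ, ∀ (x : ℂ) (f : ℤ[X]),
          Irreducible f → f.natDegree = r → aeval x f = 0 → H₀ ≤ Real.exp (height f) ^ (r * (r + 1)) →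
          Near ν θ β z (Real.exp (height f) ^ (r * (r + 1))) →
            ∀ (L : IntermediateField ℚ ℂ) [NumberField L] (φ : A →+* L) (S : Finset ℕ),
              (φ (coord A) : ℂ) = x → (∀ p ∈ S, p.Prime) →
              proximity S u y L φ + (degree u y - κ) * height f ≤ logDisc L + ∑ p ∈ S, Real.log p - C₀) := by
  intro η hη
  obtain ⟨c, hc, hmain⟩ := ProximityAllCurves.result η hη
  refine ⟨c, hc, fun A _ _ _ _ _ _ _ r q hr hq a ha u y hy0 hy κ hκ =>
    ⟨fun h0 => expo_lt hr hq hc h0, fun ν hν U hU => ?_⟩⟩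
  have hs : 0 ≤ max (exponent (alpha r c η) r q κ) 0 / ((r : ℝ) + 1) := div_nonneg (le_max_right _ _) (by positivity)
  have hcount : ∀ j : ℕ, ∀ ε : ℝ, 0 < ε → ∃ C : ℝ, ∀ X : ℝ, 1 ≤ X →
      {t : ℝ | t ∈ Val u y r κ (-(j : ℝ)) ∧ t ≤ X}.Finite ∧
      ({t : ℝ | t ∈ Val u y r κ (-(j : ℝ)) ∧ t ≤ X}.ncard : ℝ) ≤
        C * X ^ (max (exponent (alpha r c η) r q κ) 0 / ((r : ℝ) + 1) + ε) := fun j ε hε =>
    count u y hr κ (-(j : ℝ)) _ (fun δ hδ => hmain A r q hr hq a ha u y hy0 hy κ (-(j : ℝ)) δ hκ hδ) ε hε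
  have key : ∀ (θ β z : ℝ), (∀ j : ℕ, ∃ H₀ : ℝ, ∀ t ∈ Val u y r κ (-(j : ℝ)), Near ν θ β z t → t < H₀) →
      ∀ C₀ : ℝ, ∃ H₀ : ℝ, ∀ (x : ℂ) (f : ℤ[X]),
          Irreducible f → f.natDegree = r → aeval x f = 0 → H₀ ≤ Real.exp (height f) ^ (r * (r + 1)) →
          Near ν θ β z (Real.exp (height f) ^ (r * (r + 1))) →
            ∀ (L : IntermediateField ℚ ℂ) [NumberField L] (φ : A →+* L) (S : Finset ℕ),
              (φ (coord A) : ℂ) = x → (∀ p ∈ S, p.Prime) →
              proximity S u y L φ + (degree u y - κ) * height f ≤ logDisc L + ∑ p ∈ S, Real.log p - C₀ := by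
    intro θ β z h C₀
    obtain ⟨j, hj⟩ := exists_nat_ge C₀
    obtain ⟨H₀, hH⟩ := h j
    refine ⟨H₀, fun x f hf hfr hfx hlarge hnear L hL φ S hφ hS => ?_⟩
    by_contra hcon
    push Not at hcon
    refine absurd (hH _ ⟨f, x, ⟨hf, hfr, hfx, L, hL, φ, S, hφ, hS, ?_⟩, rfl⟩ hnear) (not_lt.2 hlarge)
    linarith
  refine ⟨fun θ hθ => ?_, ?_⟩
  · obtain ⟨E, h1, h2⟩ := family_threshold (fun t : ℝ => t) hν hs hθ U hU
      (fun j : ℕ => Val u y r κ (-(j : ℝ))) hcount
    exact ⟨E, h1, fun z hz hzE β hβ hβ0 => key θ β z (h2 z hz hzE β hβ hβ0)⟩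
  · filter_upwards [ae_family_threshold (fun t : ℝ => t) hν hs U hU
      (fun j : ℕ => Val u y r κ (-(j : ℝ))) hcount] with z hz hz1 θ hθ β hβ hβ0
    exact key θ β z (hz hz1 θ hθ β hβ hβ0)

end Pool.Agent.Results.MP_6f1c57_nt.NumbersNearPowers
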